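import Pool.Agent.N993.WU.Defs
import Pool.Agent.N434.WT.TRIV

set_option autoImplicit false

/-! # Project WU, step TRIV: killing `W` (helper614, after `Pool.Agent.N434.WT.TRIV` of helper434) -/

namespace Pool.Agent.N614.WU

open Pool.Agent.N993.WT (flip SphericalDiagram DR RW Gen word)
open Pool.Agent.N993.WU
open Pool.Agent.N434.WTT (val val_one mk_word)

theorem emb_prod {n m : ℕ} {c : Fin m → ℕ} {G : Type} [Group G] (F : Gen n c → G)
    (w : List (Fin n × Bool)) :
    ((emb (c := c) w).map (val F)).prod = FreeGroup.lift (fun i => F (Sum.inl i)) (word w) := by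
  rw [word, FreeGroup.lift_mk, emb, List.map_map]
  congr 1
  apply List.map_congr_left
  intro y _
  simp only [Function.comp_apply, val]
  cases y.2 <;> rfl

theorem t_TRIV : S_TRIV := by
  intro n m c W U v ℓ g hv hW
  obtain ⟨rels, hrels⟩ : ∃ rels : Set (FreeGroup (Gen n c)), rels =
    Set.range (fun e => word (rel U v g e)) ∪
      {(FreeGroup.map Sum.inl W : FreeGroup (Gen n c))} := ⟨_, rfl⟩
  rw [← hrels]
  obtain ⟨F, hF⟩ : ∃ F : Gen n c → PresentedGroup rels, F = fun x => PresentedGroup.of x :=
    ⟨_, rfl⟩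
  obtain ⟨ψ, hψ⟩ : ∃ ψ : FreeGroup (Fin n) →* PresentedGroup rels,
    ψ = FreeGroup.lift fun i => F (Sum.inl i) := ⟨_, rfl⟩
  have hψW : ψ W = 1 := by
    have h1 : ψ = (PresentedGroup.mk rels).comp (FreeGroup.map Sum.inl) := by
      apply FreeGroup.ext_hom
      intro i
      rw [hψ, FreeGroup.lift_apply_of, hF, MonoidHom.comp_apply, FreeGroup.map.of]
      rfl
    rw [h1, MonoidHom.comp_apply]
    apply PresentedGroup.one_of_mem
    rw [hrels]
    exact Or.inr rfl
  have hrel : ∀ e, ((rel U v g e).map (val F)).prod = 1 := by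
    intro e
    rw [hF, ← mk_word]
    apply PresentedGroup.one_of_mem
    rw [hrels]
    exact Or.inl ⟨e, rfl⟩
  have hU : ∀ i : ℕ, ∀ hi : i < m, ψ (word (U ⟨i, hi⟩)) = 1 := by
    intro i
    induction i using Nat.strong_induction_on with
    | _ i ih =>
      intro hi
      have hker : ∀ k, ψ (word (v ⟨⟨i, hi⟩, k⟩)) = 1 := by
        intro k
        have h1 : Subgroup.normalClosure ({W} ∪ {x | ∃ i' < (⟨i, hi⟩ : Fin m), x = word (U i')}) ≤
            ψ.ker := by
          apply Subgroup.normalClosure_le_normal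
          rintro x (hx | ⟨i', hi', rfl⟩)
          · rw [Set.mem_singleton_iff.1 hx]
            exact hψW
          · exact ih i' hi' i'.2
        exact h1 (hv ⟨i, hi⟩ k)
      have h1 := hrel (Sum.inl ⟨i, hi⟩)
      simp only [rel, List.map_append, List.prod_append, List.map_flatten, List.prod_flatten,
        List.map_ofFn] at h1
      have h2 : (List.ofFn fun k : Fin (c ⟨i, hi⟩) =>
          (List.map (val F) ([(Sum.inr ⟨⟨i, hi⟩, k⟩, true)] ++ emb (v ⟨⟨i, hi⟩, k⟩) ++
            [(Sum.inr ⟨⟨i, hi⟩, k⟩, false)])).prod).prod = 1 := by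
        apply List.prod_eq_one
        intro y hy
        rw [List.mem_ofFn] at hy
        obtain ⟨k, rfl⟩ := hy
        have h3 := hker k
        rw [hψ, ← emb_prod] at h3
        rw [List.map_append, List.map_append, List.prod_append, List.prod_append, h3]
        simp [val]
      rw [emb_prod, ← hψ] at h1
      have h4 : ψ (word (U ⟨i, hi⟩)) * (List.ofFn fun k : Fin (c ⟨i, hi⟩) =>
          (List.map (val F) ([(Sum.inr ⟨⟨i, hi⟩, k⟩, true)] ++ emb (v ⟨⟨i, hi⟩, k⟩) ++
            [(Sum.inr ⟨⟨i, hi⟩, k⟩, false)])).prod).prod = 1 := h1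
      rwa [h2, mul_one] at h4
  have hx : ∀ i : Fin n, F (Sum.inl i) = 1 := by
    intro i
    have h1 : (⊤ : Subgroup (FreeGroup (Fin n))) ≤ ψ.ker := by
      rw [← hW]
      apply Subgroup.normalClosure_le_normal
      rintro x (hx | ⟨j, rfl⟩)
      · rw [Set.mem_singleton_iff.1 hx]
        exact hψW
      · exact hU j j.2
    have h2 : ψ (FreeGroup.of i) = 1 := h1 (Subgroup.mem_top _)
    rwa [hψ, FreeGroup.lift_apply_of] at h2
  have hs : ∀ t, F (Sum.inr t) = 1 := by
    intro t
    have h1 := hrel (Sum.inr t)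
    simp only [rel, List.map_cons, List.prod_cons, List.map_ofFn] at h1
    have h2 : (List.ofFn (val F ∘ fun i => (Sum.inl ((g t).1 i).1, ((g t).1 i).2))).prod = 1 := by
      apply List.prod_eq_one
      intro y hy
      rw [List.mem_ofFn] at hy
      obtain ⟨k, rfl⟩ := hy
      exact val_one (hx _) _
    rw [h2, mul_one] at h1
    unfold val at h1
    simpa using h1
  have hall : ∀ x, F x = 1 := by
    intro x
    rcases x with x | x
    · exact hx x
    · exact hs x
  have hhom : MonoidHom.id (PresentedGroup rels) = 1 := by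
    apply PresentedGroup.ext
    intro x
    have := hall x
    rw [hF] at this
    exact this
  intro z
  have := DFunLike.congr_fun hhom z
  exact this

end Pool.Agent.N614.WU
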